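import Mathlib

/-!
# Lazy versus round-based burning numbers under proportional spread

For `MP_6677ae_co`.  The path on five vertices together with the edge consisting of all five
vertices has lazy burning number `1` both for `p = 1/5` and for `q = 1/2`, but its round-based
burning number is `2` for `p` and `3` for `q`.
-/

namespace Pool.Agent.Results.MP_6677ae_co.LazyVersusRound

open Finset

variable {V : Type} [Fintype V] [DecidableEq V]

/-- One application of the spread rule with proportion `p` in the hypergraph with edge set `E`: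
every edge `e` with at least `⌈p|e|⌉` vertices in `F` burns completely, and burning vertices stay
burning. -/
noncomputable def spread (p : ℝ) (E : Finset (Finset V)) (F : Finset V) : Finset V :=
  F ∪ (E.filter (fun e => ⌈p * (e.card : ℝ)⌉₊ ≤ (e ∩ F).card)).biUnion id

/-- The set of vertices burning at the end of round `r`, when the player chooses the vertex
`u r` in round `r` (`r ≥ 1`). -/
noncomputable def fire (p : ℝ) (E : Finset (Finset V)) (u : ℕ → V) : ℕ → Finset V
  | 0 => ∅
  | r + 1 => insert (u (r + 1)) (spread p E (fire p E u r))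

/-- `(u 1, …, u k)` is a burning sequence. -/
def IsBurningSeq (p : ℝ) (E : Finset (Finset V)) (k : ℕ) (u : ℕ → V) : Prop :=
  (∀ r < k, u (r + 1) ∉ fire p E u r) ∧ fire p E u k = univ

/-- The round-based burning number `b_p(H)`. -/
noncomputable def burningNumber (p : ℝ) (E : Finset (Finset V)) : ℕ :=
  sInf {k : ℕ | ∃ u : ℕ → V, IsBurningSeq p E k u}

/-- `S` is a lazy burning set: applying the spread rule repeatedly to `S` eventually burns
every vertex. -/
def IsLazyBurningSet (p : ℝ) (E : Finset (Finset V)) (S : Finset V) : Prop :=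
  ∃ t : ℕ, (spread p E)^[t] S = univ

/-- The lazy burning number `b_{L,p}(H)`. -/
noncomputable def lazyBurningNumber (p : ℝ) (E : Finset (Finset V)) : ℕ :=
  sInf {k : ℕ | ∃ S : Finset V, IsLazyBurningSet p E S ∧ S.card = k}

/-- The spread rule with prescribed thresholds. -/
def spreadT (thr : ℕ → ℕ) (E : Finset (Finset V)) (F : Finset V) : Finset V :=
  F ∪ (E.filter (fun e => thr e.card ≤ (e ∩ F).card)).biUnion id

lemma spread_eq_spreadT {p : ℝ} {thr : ℕ → ℕ} {E : Finset (Finset V)}
    (h : ∀ e ∈ E, ⌈p * (e.card : ℝ)⌉₊ = thr e.card) (F : Finset V) :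
    spread p E F = spreadT thr E F := by
  unfold spread spreadT
  congr 2
  apply Finset.filter_congr
  intro e he
  rw [h e he]

/-- The path on five vertices and the edge with all five vertices. -/
def E₀ : Finset (Finset (Fin 5)) := {{0, 1}, {1, 2}, {2, 3}, {3, 4}, {0, 1, 2, 3, 4}}

lemma card_E₀ : ∀ e ∈ E₀, e.card = 2 ∨ e.card = 5 := by decide

/-- the thresholds for `p = 1/5` -/
def thrP (_ : ℕ) : ℕ := 1

/-- the thresholds for `q = 1/2` -/
def thrQ (m : ℕ) : ℕ := if m = 5 then 3 else 1

lemma ceil_one {x : ℝ} (h0 : 0 < x) (h1 : x ≤ 1) : ⌈x⌉₊ = 1 := by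
  rw [Nat.ceil_eq_iff (by norm_num)]
  constructor
  · simpa using h0
  · simpa using h1

lemma spreadP (F : Finset (Fin 5)) : spread (1 / 5) E₀ F = spreadT thrP E₀ F := by
  apply spread_eq_spreadT
  intro e he
  rcases card_E₀ e he with h | h
  · rw [h]; exact ceil_one (by norm_num) (by norm_num)
  · rw [h]; exact ceil_one (by norm_num) (by norm_num)

lemma spreadQ (F : Finset (Fin 5)) : spread (1 / 2) E₀ F = spreadT thrQ E₀ F := by
  apply spread_eq_spreadT
  intro e he
  rcases card_E₀ e he with h | h
  · rw [h]; exact ceil_one (by norm_num) (by norm_num)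
  · rw [h]
    have : ⌈(1 / 2 : ℝ) * ((5 : ℕ) : ℝ)⌉₊ = 3 := by
      rw [Nat.ceil_eq_iff (by norm_num)]
      constructor <;> norm_num
    rw [this]; rfl

lemma lazy_of {p : ℝ} {thr : ℕ → ℕ} (hs : ∀ F, spread p E₀ F = spreadT thr E₀ F)
    (h2 : (spreadT thr E₀)^[4] {0} = univ) (h0 : spreadT thr E₀ ∅ = ∅) :
    lazyBurningNumber p E₀ = 1 := by
  have hfun : spread p E₀ = spreadT thr E₀ := funext hs
  have h1 : (1 : ℕ) ∈ {k : ℕ | ∃ S : Finset (Fin 5), IsLazyBurningSet p E₀ S ∧ S.card = k} := by
    refine ⟨{0}, ⟨4, ?_⟩, by simp⟩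
    rw [hfun]; exact h2
  have hle : lazyBurningNumber p E₀ ≤ 1 := Nat.sInf_le h1
  have hmem := Nat.sInf_mem (⟨1, h1⟩ : Set.Nonempty _)
  have hne : lazyBurningNumber p E₀ ≠ 0 := by
    intro h
    unfold lazyBurningNumber at h
    rw [h] at hmem
    obtain ⟨S, ⟨t, ht⟩, hS⟩ := hmem
    have hS' : S = ∅ := Finset.card_eq_zero.1 hS
    subst hS'
    have : ∀ t : ℕ, (spread p E₀)^[t] (∅ : Finset (Fin 5)) = ∅ := by
      intro t
      induction t with
      | zero => rfl
      | succ t ih => rw [Function.iterate_succ_apply', ih, hfun, h0]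
    rw [this t] at ht
    exact absurd ht (by decide)
  omega

lemma burn_P : burningNumber (1 / 5) E₀ = 2 := by
  have h2 : (2 : ℕ) ∈ {k : ℕ | ∃ u : ℕ → Fin 5, IsBurningSeq (1 / 5) E₀ k u} := by
    refine ⟨fun r => if r = 1 then 0 else 1, ?_, ?_⟩
    · intro r hr
      interval_cases r
      · simp [fire]
      · simp only [fire, spreadP]; decide
    · simp only [fire, spreadP]; decide
  have hle : burningNumber (1 / 5) E₀ ≤ 2 := Nat.sInf_le h2
  have hmem := Nat.sInf_mem (⟨2, h2⟩ : Set.Nonempty _)
  have h0 : burningNumber (1 / 5) E₀ ≠ 0 := by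
    intro h
    unfold burningNumber at h
    rw [h] at hmem
    obtain ⟨u, -, hu⟩ := hmem
    simp only [fire] at hu
    exact absurd hu (by decide)
  have h1 : burningNumber (1 / 5) E₀ ≠ 1 := by
    intro h
    unfold burningNumber at h
    rw [h] at hmem
    obtain ⟨u, -, hu⟩ := hmem
    simp only [fire, spreadP] at hu
    generalize u (0 + 1) = a at hu
    revert a
    decide
  omega

lemma burn_Q : burningNumber (1 / 2) E₀ = 3 := by
  have h3 : (3 : ℕ) ∈ {k : ℕ | ∃ u : ℕ → Fin 5, IsBurningSeq (1 / 2) E₀ k u} := by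
    refine ⟨fun r => if r = 1 then 2 else if r = 2 then 0 else 4, ?_, ?_⟩
    · intro r hr
      interval_cases r
      · simp [fire]
      · simp only [fire, spreadQ]; decide
      · simp only [fire, spreadQ]; decide
    · simp only [fire, spreadQ]; decide
  have hle : burningNumber (1 / 2) E₀ ≤ 3 := Nat.sInf_le h3
  have hmem := Nat.sInf_mem (⟨3, h3⟩ : Set.Nonempty _)
  have h0 : burningNumber (1 / 2) E₀ ≠ 0 := by
    intro h
    unfold burningNumber at h
    rw [h] at hmem
    obtain ⟨u, -, hu⟩ := hmem
    simp only [fire] at hu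
    exact absurd hu (by decide)
  have h1 : burningNumber (1 / 2) E₀ ≠ 1 := by
    intro h
    unfold burningNumber at h
    rw [h] at hmem
    obtain ⟨u, -, hu⟩ := hmem
    simp only [fire, spreadQ] at hu
    generalize u (0 + 1) = a at hu
    revert a
    decide
  have h2 : burningNumber (1 / 2) E₀ ≠ 2 := by
    intro h
    unfold burningNumber at h
    rw [h] at hmem
    obtain ⟨u, -, hu⟩ := hmem
    simp only [fire, spreadQ] at hu
    generalize u (0 + 1) = a at hu
    generalize u (1 + 1) = b at hu
    revert a b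
    decide
  omega

/-- The implication `b_{L,p}(H) = b_{L,q}(H) → b_p(H) = b_q(H)` fails: there is a hypergraph on
five vertices and there are proportions `p < q` with equal lazy burning numbers (both `1`) and
round-based burning numbers `2` and `3`. -/
theorem result :
    ∃ E : Finset (Finset (Fin 5)), ∃ p q : ℝ, 0 < p ∧ p < q ∧ q < 1 ∧
      lazyBurningNumber p E = 1 ∧ lazyBurningNumber q E = 1 ∧
      burningNumber p E = 2 ∧ burningNumber q E = 3 := by
  refine ⟨E₀, 1 / 5, 1 / 2, by norm_num, by norm_num, by norm_num, ?_, ?_, burn_P, burn_Q⟩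
  · exact lazy_of spreadP (by decide) (by decide)
  · exact lazy_of spreadQ (by decide) (by decide)

end Pool.Agent.Results.MP_6677ae_co.LazyVersusRound
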